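import Mathlib
import Pool.Agent.Helper11_PGL.StmtG

/-!
# PGL, module GALG: good elements are closed under algebraic extension
-/

open Polynomial PGH

universe u

namespace PGL

theorem GoodEl2.base {k : Type u} {M : Type u} [Field k] [Field M] [Algebra k M] {F₀ : Set M} {a : M}
    (ha : a ∈ F₀) : GoodEl2 k F₀ a := by
  refine ⟨{a}, Set.finite_singleton _, rfl, ?_, ?_⟩
  · intro E _ _ _ ψ
    refine ⟨ht k (ψ a), fun R _ φ h => ?_⟩
    rw [h a rfl ha]
  · intro E _ _ z _ _ R _ φ h
    exact h a rfl ha

section Alg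

variable {k : Type u} {M : Type u} [Field k] [Field M] [Algebra k M] [IsAlgClosed k] [CharZero k]

theorem GoodEl2.const (F₀ : Set M) (c : k) : GoodEl2 k F₀ (algebraMap k M c) := by
  refine ⟨{algebraMap k M c}, Set.finite_singleton _, rfl, ?_, ?_⟩
  · intro E _ _ _ _
    refine ⟨0, fun R _ φ _ => ?_⟩
    rw [ev_mem φ (R.algebraMap_mem c)]
    have : φ ⟨algebraMap k M c, R.algebraMap_mem c⟩ = algebraMap k E c := φ.commutes c
    rw [this, ht_const]
  · intro E _ _ z _ _ R _ φ _
    rw [ev_mem φ (R.algebraMap_mem c)]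
    exact ⟨c, φ.commutes c⟩

/-- elements algebraic over a field generated by good elements are good -/
theorem GoodEl2.of_algebraic {F₀ : Set M} {ι : Type*} [Finite ι] (z : ι → M)
    (hz : ∀ i, GoodEl2 k F₀ (z i)) {a : M}
    (ha : IsAlgebraic (IntermediateField.adjoin k (Set.range z)) a) : GoodEl2 k F₀ a := by
  classical
  have := Fintype.ofFinite ι
  obtain ⟨p, hp, hpa⟩ := exists_relation_of_isAlgebraic z ha
  choose T hT hzT hB hR using hz
  set l : M := MvPolynomial.aeval z p.leadingCoeff with hl
  refine ⟨(⋃ i, T i) ∪ {a, l⁻¹}, (Set.finite_iUnion hT).union (Set.toFinite _), Or.inr (Or.inl rfl),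
    ?_, ?_⟩
  · intro E _ _ _ ψ
    have hBE := fun i => hB i E ψ
    choose B hBB using hBE
    refine ⟨cx' p * ∑ i, B i, fun R hTR φ hψ => ?_⟩
    have hTi : ∀ i, T i ⊆ (R : Set M) := fun i =>
      (Set.subset_iUnion T i).trans (Set.subset_union_left.trans hTR)
    have haR : a ∈ R := hTR (Or.inr (Or.inl rfl))
    have hlR : l⁻¹ ∈ R := hTR (Or.inr (Or.inr rfl))
    let zR : ι → R := fun i => ⟨z i, hTi i (hzT i)⟩
    have hcoe : ∀ q : MvPolynomial ι k, ((MvPolynomial.aeval zR q : R) : M) = MvPolynomial.aeval z q :=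
      fun q => MvPolynomial.comp_aeval_apply zR R.val q
    have hev : ∀ i, ev φ (z i) = φ (zR i) := fun i => ev_mem φ _
    have h0 : MvPolynomial.aeval (fun i => φ (zR i)) p.leadingCoeff ≠ 0 := by
      have h1 : MvPolynomial.aeval (fun i => φ (zR i)) p.leadingCoeff =
          φ (MvPolynomial.aeval zR p.leadingCoeff) :=
        (MvPolynomial.comp_aeval_apply zR φ p.leadingCoeff).symm
      rw [h1]
      have h2 : IsUnit (MvPolynomial.aeval zR p.leadingCoeff) := by
        refine IsUnit.of_mul_eq_one ⟨l⁻¹, hlR⟩ ?_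
        apply Subtype.ext
        change ((MvPolynomial.aeval zR p.leadingCoeff : R) : M) * l⁻¹ = 1
        rw [hcoe]
        exact mul_inv_cancel₀ hp
      exact (h2.map φ).ne_zero
    have h1 : (p.map (MvPolynomial.aeval (fun i => φ (zR i))).toRingHom).eval (φ ⟨a, haR⟩) = 0 := by
      have h2 : (p.map (MvPolynomial.aeval zR).toRingHom).eval (⟨a, haR⟩ : R) = 0 := by
        apply Subtype.val_injective
        change R.val _ = ((0 : R) : M)
        rw [Polynomial.eval_map]
        change R.val.toRingHom _ = _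
        rw [Polynomial.hom_eval₂]
        rw [Polynomial.eval_map] at hpa
        rw [ZeroMemClass.coe_zero, ← hpa]
        congr 1
        ext c
        · simp
        · simp [zR]
      have h3 := congrArg φ h2
      rw [map_zero] at h3
      rw [← h3]
      change _ = φ.toRingHom _
      rw [eval_map, eval_map, Polynomial.hom_eval₂]
      congr 1
      ext c
      · simp
      · simp
    rw [ev_mem φ haR]
    refine (ht_root_le' p _ _ h0 h1).trans ?_
    apply Nat.mul_le_mul_left
    apply Finset.sum_le_sum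
    intro i _
    rw [← hev]
    exact hBB i R (hTi i) φ (fun t ht => hψ t (Or.inl (Set.mem_iUnion.2 ⟨i, ht⟩)))
  · intro E _ _ x hx htop R hTR φ hF₀
    have hTi : ∀ i, T i ⊆ (R : Set M) := fun i =>
      (Set.subset_iUnion T i).trans (Set.subset_union_left.trans hTR)
    have haR : a ∈ R := hTR (Or.inr (Or.inl rfl))
    have hlR : l⁻¹ ∈ R := hTR (Or.inr (Or.inr rfl))
    let zR : ι → R := fun i => ⟨z i, hTi i (hzT i)⟩
    have hcoe : ∀ q : MvPolynomial ι k, ((MvPolynomial.aeval zR q : R) : M) = MvPolynomial.aeval z q :=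
      fun q => MvPolynomial.comp_aeval_apply zR R.val q
    have hconst : ∀ i, ∃ c : k, φ (zR i) = algebraMap k E c := by
      intro i
      have h1 := hR i E x hx htop R (hTi i) φ
        (fun t ht => hF₀ t (Or.inl (Set.mem_iUnion.2 ⟨i, ht⟩)))
      rwa [ev_mem φ (hTi i (hzT i))] at h1
    choose c hc using hconst
    have h0 : MvPolynomial.aeval (fun i => φ (zR i)) p.leadingCoeff ≠ 0 := by
      have h1 : MvPolynomial.aeval (fun i => φ (zR i)) p.leadingCoeff =
          φ (MvPolynomial.aeval zR p.leadingCoeff) :=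
        (MvPolynomial.comp_aeval_apply zR φ p.leadingCoeff).symm
      rw [h1]
      have h2 : IsUnit (MvPolynomial.aeval zR p.leadingCoeff) := by
        refine IsUnit.of_mul_eq_one ⟨l⁻¹, hlR⟩ ?_
        apply Subtype.ext
        change ((MvPolynomial.aeval zR p.leadingCoeff : R) : M) * l⁻¹ = 1
        rw [hcoe]
        exact mul_inv_cancel₀ hp
      exact (h2.map φ).ne_zero
    rw [ev_mem φ haR]
    let θ : MvPolynomial ι k →+* k := (MvPolynomial.aeval c : MvPolynomial ι k →ₐ[k] k).toRingHom
    have hθ : ((algebraMap k E).comp θ) =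
        (MvPolynomial.aeval (fun i => φ (zR i)) : MvPolynomial ι k →ₐ[k] E).toRingHom := by
      ext i
      · simp [θ]
      · simp [θ, hc]
    have halg : IsAlgebraic k (φ ⟨a, haR⟩) := by
      refine ⟨p.map θ, ?_, ?_⟩
      · intro h0'
        have h1 : (p.map θ).coeff p.natDegree = 0 := by rw [h0', coeff_zero]
        rw [coeff_map] at h1
        have h2 := congrArg (algebraMap k E) h1
        rw [map_zero, ← RingHom.comp_apply, hθ] at h2
        exact h0 h2
      · rw [aeval_def, eval₂_map, hθ]
        have h2 : (p.map (MvPolynomial.aeval zR).toRingHom).eval (⟨a, haR⟩ : R) = 0 := by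
          apply Subtype.val_injective
          change R.val _ = ((0 : R) : M)
          rw [Polynomial.eval_map]
          change R.val.toRingHom _ = _
          rw [Polynomial.hom_eval₂]
          rw [Polynomial.eval_map] at hpa
          rw [ZeroMemClass.coe_zero, ← hpa]
          congr 1
          ext c
          · simp
          · simp [zR]
        have h3 := congrArg φ h2
        rw [map_zero] at h3
        rw [← h3]
        change _ = φ.toRingHom _
        rw [eval_map, Polynomial.hom_eval₂]
        congr 1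
        ext c
        · simp
        · simp
    obtain ⟨d, hd⟩ := mem_range_of_isAlgebraic halg
    exact ⟨d, hd.symm⟩

theorem good2_of_root {F₀ : Set M} {S : Set M} (hS : ∀ s ∈ S, GoodEl2 k F₀ s) {q : Polynomial M}
    (hq0 : q ≠ 0)
    (hq : ∀ n, q.coeff n ∈ IntermediateField.adjoin k S) {a : M} (ha : q.eval a = 0) :
    GoodEl2 k F₀ a := by
  classical
  have h1 : ∀ n, ∃ T : Finset M, (T : Set M) ⊆ S ∧ q.coeff n ∈ IntermediateField.adjoin k (T : Set M) :=
    fun n => IntermediateField.exists_finset_of_mem_adjoin (hq n)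
  choose T hTS hT using h1
  let T' : Finset M := q.support.biUnion T
  have hT'S : (T' : Set M) ⊆ S := by
    intro t ht
    obtain ⟨n, -, hn⟩ := Finset.mem_biUnion.1 (Finset.mem_coe.1 ht)
    exact hTS n hn
  have hT' : ∀ n, q.coeff n ∈ IntermediateField.adjoin k (T' : Set M) := by
    intro n
    by_cases hn : n ∈ q.support
    · apply IntermediateField.adjoin.mono k _ _ _ (hT n)
      exact_mod_cast Finset.subset_biUnion_of_mem T hn
    · rw [notMem_support_iff.1 hn]
      exact zero_mem _
  refine GoodEl2.of_algebraic (ι := T') (fun t => (t : M)) (fun t => hS t (hT'S t.2)) ?_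
  have hr : Set.range (fun t : T' => (t : M)) = (T' : Set M) := Subtype.range_coe
  rw [hr]
  have h2 : q ∈ lifts (algebraMap (IntermediateField.adjoin k (T' : Set M)) M) := by
    rw [lifts_iff_coeff_lifts]
    intro n
    exact ⟨⟨_, hT' n⟩, rfl⟩
  obtain ⟨p, hp⟩ := (mem_lifts _).1 h2
  refine ⟨p, ?_, ?_⟩
  · rintro rfl
    rw [Polynomial.map_zero] at hp
    exact hq0 hp.symm
  · rw [aeval_def, ← eval_map, hp, ha]

theorem good2_of_isAlgebraic {F₀ : Set M} {S : Set M} (hS : ∀ s ∈ S, GoodEl2 k F₀ s) {a : M}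
    (ha : IsAlgebraic (Subfield.closure S) a) : GoodEl2 k F₀ a := by
  obtain ⟨p, hp0, hp⟩ := ha
  refine good2_of_root hS (q := p.map (algebraMap (Subfield.closure S) M)) ?_ ?_ ?_
  · rw [Ne, Polynomial.map_eq_zero_iff (algebraMap (Subfield.closure S) M).injective]
    exact hp0
  · intro n
    rw [coeff_map]
    have h1 : Subfield.closure S ≤ (IntermediateField.adjoin k S).toSubfield :=
      Subfield.closure_le.2 (IntermediateField.subset_adjoin k S)
    exact h1 (p.coeff n).2
  · rw [eval_map, ← aeval_def]; exact hp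

end Alg

/-- GALG -/
theorem gAlg : GAlgStmt.{u} := by
  intro k M _ _ _ _ _ F₀
  exact ⟨fun a ha => GoodEl2.base ha, fun c => GoodEl2.const F₀ c,
    fun S hS a ha => good2_of_isAlgebraic hS ha⟩

end PGL
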