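import Mathlib
import Pool.Agent.Helper11_PGL.StmtK

/-!
# PGL, module GAUSS: Gauss's lemma for `E ⊗ R` at the places of `R`
-/

open scoped TensorProduct
open PGH

universe u

namespace PGL

section Tens

variable {k E R : Type*} [Field k] [Field E] [Field R] [Algebra k E] [Algebra k R]

theorem tmul_mem_tens {W : Submodule k R} (e : E) {w : R} (hw : w ∈ W) :
    e ⊗ₜ[k] w ∈ tens k E W :=
  ⟨e ⊗ₜ[k] (⟨w, hw⟩ : W), by simp⟩

theorem tens_induction {W : Submodule k R} {p : E ⊗[k] R → Prop} (h0 : p 0)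
    (h1 : ∀ (e : E) (w : R), w ∈ W → p (e ⊗ₜ[k] w)) (h2 : ∀ x y, p x → p y → p (x + y))
    {t : E ⊗[k] R} (ht : t ∈ tens k E W) : p t := by
  obtain ⟨x, rfl⟩ := ht
  induction x using TensorProduct.induction_on with
  | zero => rw [map_zero]; exact h0
  | tmul e w =>
    rw [TensorProduct.map_tmul]
    exact h1 e w w.2
  | add x y hx hy => rw [map_add]; exact h2 _ _ hx hy

variable {ι : Type*} [DecidableEq ι] (b : Module.Basis ι k E)

/-- the coordinates of an element of `E ⊗ R` -/
noncomputable abbrev cf : E ⊗[k] R ≃ₗ[k] (ι →₀ R) := TensorProduct.equivFinsuppOfBasisLeft b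

theorem cf_sum (t : E ⊗[k] R) : t = (cf b t).sum (fun i r => b i ⊗ₜ[k] r) := by
  rw [← TensorProduct.equivFinsuppOfBasisLeft_symm_apply]
  exact ((cf b).symm_apply_apply t).symm

theorem mem_tens_iff {W : Submodule k R} {t : E ⊗[k] R} :
    t ∈ tens k E W ↔ ∀ i, cf b t i ∈ W := by
  constructor
  · intro h
    refine tens_induction (p := fun t => ∀ i, cf b t i ∈ W) ?_ ?_ ?_ h
    · intro i; rw [map_zero]; exact zero_mem W
    · intro e w hw i
      rw [TensorProduct.equivFinsuppOfBasisLeft_apply_tmul_apply]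
      exact W.smul_mem _ hw
    · intro x y hx hy i
      rw [map_add, Finsupp.add_apply]
      exact add_mem (hx i) (hy i)
  · intro h
    rw [cf_sum b t]
    exact Submodule.sum_mem _ (fun i _ => tmul_mem_tens _ (h i))

theorem tens_mono {W W' : Submodule k R} (h : W ≤ W') : tens k E W ≤ tens k E W' := by
  intro t ht
  refine tens_induction (p := fun t => t ∈ tens k E W') (zero_mem _)
    (fun e w hw => tmul_mem_tens e (h hw)) (fun x y hx hy => add_mem hx hy) ht

/-- the elements of order at least `n` at `P` -/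
def Fl (P : Place k R) (n : ℤ) : Submodule k R where
  carrier := {y | P.Ge n y}
  add_mem' := fun ha hb => ha.add hb
  zero_mem' := P.ge_zero n
  smul_mem' := fun c _ hy => hy.smul c

theorem mem_Fl {P : Place k R} {n : ℤ} {y : R} : y ∈ Fl P n ↔ P.Ge n y := Iff.rfl

variable (P : Place k R)

/-- a linear extension of the residue map -/
theorem exists_resL : ∃ r : R →ₗ[k] k, ∀ y, P.Ge 0 y → P.Ge 1 (y - algebraMap k R (r y)) := by
  let f : Fl P 0 →ₗ[k] k :=
    { toFun := fun y => P.res (y : R)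
      map_add' := fun x y => by
        apply P.res_eq (x + y).2
        have h1 := (P.res_spec (mem_Fl.1 x.2)).add (P.res_spec (mem_Fl.1 y.2))
        convert h1 using 1
        rw [map_add, Submodule.coe_add]; ring
      map_smul' := fun c x => by
        apply P.res_eq (c • x).2
        have h1 := (P.res_spec (mem_Fl.1 x.2)).smul c
        convert h1 using 1
        rw [RingHom.id_apply, smul_eq_mul, map_mul, smul_sub, Algebra.smul_def c (algebraMap k R _)]
        rfl }
  obtain ⟨r, hr⟩ := f.exists_extend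
  refine ⟨r, fun y hy => ?_⟩
  have h1 : r y = P.res y := by
    have h2 := LinearMap.congr_fun hr ⟨y, hy⟩
    exact h2
  rw [h1]
  exact P.res_spec hy

variable {P} {r : R →ₗ[k] k} (hr : ∀ y, P.Ge 0 y → P.Ge 1 (y - algebraMap k R (r y)))

include hr

theorem resL_eq_zero_iff {y : R} (hy : P.Ge 0 y) : r y = 0 ↔ P.Ge 1 y := by
  constructor
  · intro h
    have h1 := hr y hy
    rwa [h, map_zero, sub_zero] at h1
  · intro h
    apply P.res_unique (hr y hy)
    rwa [map_zero, sub_zero]

theorem resL_mul {x y : R} (hx : P.Ge 0 x) (hy : P.Ge 0 y) : r (x * y) = r x * r y := by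
  apply P.res_unique (hr _ (hx.mul' hy (by norm_num)))
  have e : x * y - algebraMap k R (r x * r y) = x * (y - algebraMap k R (r y)) +
      (x - algebraMap k R (r x)) * algebraMap k R (r y) := by
    rw [map_mul]; ring
  rw [e]
  exact (hx.mul' (hr y hy) (by norm_num)).add ((hr x hx).mul' (P.ge_const _) (by norm_num))

omit hr in
/-- the map `e ⊗ y ↦ r y • e` -/
noncomputable def rho (E : Type*) [Field E] [Algebra k E] (r : R →ₗ[k] k) : E ⊗[k] R →ₗ[k] E :=
  (TensorProduct.rid k E).toLinearMap ∘ₗ LinearMap.lTensor E r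

omit hr in
@[simp] theorem rho_tmul (r : R →ₗ[k] k) (e : E) (y : R) : rho E r (e ⊗ₜ[k] y) = r y • e := by
  simp [rho]

theorem rho_mul {s t : E ⊗[k] R} (hs : s ∈ tens k E (Fl P 0)) (ht : t ∈ tens k E (Fl P 0)) :
    rho E r (s * t) = rho E r s * rho E r t := by
  refine tens_induction (p := fun s => rho E r (s * t) = rho E r s * rho E r t) ?_ ?_ ?_ hs
  · simp
  · intro e w hw
    refine tens_induction (p := fun t => rho E r ((e ⊗ₜ[k] w) * t) =
      rho E r (e ⊗ₜ[k] w) * rho E r t) ?_ ?_ ?_ ht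
    · simp
    · intro e' w' hw'
      rw [Algebra.TensorProduct.tmul_mul_tmul, rho_tmul, rho_tmul, rho_tmul,
        resL_mul hr (mem_Fl.1 hw) (mem_Fl.1 hw')]
      simp only [Algebra.smul_def, map_mul]
      ring
    · intro x y hx hy
      rw [mul_add, map_add, hx, hy, map_add, mul_add]
  · intro x y hx hy
    rw [add_mul, map_add, hx, hy, map_add, add_mul]

theorem rho_eq_zero {t : E ⊗[k] R} (ht : t ∈ tens k E (Fl P 1)) : rho E r t = 0 := by
  refine tens_induction (p := fun t => rho E r t = 0) (map_zero _) ?_ ?_ ht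
  · intro e w hw
    rw [rho_tmul, (resL_eq_zero_iff hr ((mem_Fl.1 hw).mono (by norm_num))).2 hw, zero_smul]
  · intro x y hx hy
    rw [map_add, hx, hy, add_zero]

theorem rho_ne_zero {t : E ⊗[k] R} (ht : t ∈ tens k E (Fl P 0)) (ht1 : t ∉ tens k E (Fl P 1)) :
    rho E r t ≠ 0 := by
  classical
  let b := Module.Basis.ofVectorSpace k E
  rw [mem_tens_iff b] at ht ht1
  push Not at ht1
  obtain ⟨i, hi⟩ := ht1
  intro h0
  have h1 : rho E r t = Finsupp.linearCombination k b ((cf b t).mapRange r (map_zero r)) := by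
    conv_lhs => rw [cf_sum b t]
    rw [Finsupp.linearCombination_apply, Finsupp.sum_mapRange_index (by simp), Finsupp.sum,
      map_sum, Finsupp.sum]
    exact Finset.sum_congr rfl (fun j _ => by rw [rho_tmul])
  have h2 := b.linearIndependent
  rw [linearIndependent_iff] at h2
  have h3 := h2 _ (h1.symm.trans h0)
  have h4 := DFunLike.congr_fun h3 i
  rw [Finsupp.mapRange_apply, Finsupp.zero_apply] at h4
  exact hi ((resL_eq_zero_iff hr (ht i)).1 h4)

omit hr

theorem mul_unif_mem {u : R} (hu0 : u ≠ 0) (hu : P.ord u = 1) {n : ℤ} (m : ℤ) {t : E ⊗[k] R}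
    (ht : t ∈ tens k E (Fl P n)) : t * (1 : E) ⊗ₜ[k] (u ^ m) ∈ tens k E (Fl P (n + m)) := by
  refine tens_induction (p := fun t => t * (1 : E) ⊗ₜ[k] (u ^ m) ∈ tens k E (Fl P (n + m)))
    (by rw [zero_mul]; exact zero_mem _) ?_ ?_ ht
  · intro e w hw
    rw [Algebra.TensorProduct.tmul_mul_tmul]
    exact tmul_mem_tens _ ((mem_Fl.1 hw).mul (P.ge_zpow hu0 hu m))
  · intro x y hx hy
    rw [add_mul]
    exact add_mem hx hy

theorem exists_exact {t : E ⊗[k] R} (ht : t ≠ 0) :
    ∃ d : ℤ, t ∈ tens k E (Fl P d) ∧ t ∉ tens k E (Fl P (d + 1)) := by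
  classical
  classical
  let b := Module.Basis.ofVectorSpace k E
  have hne : (cf b t).support.Nonempty := by
    rw [Finsupp.support_nonempty_iff]
    intro h
    exact ht ((cf b).map_eq_zero_iff.1 h)
  obtain ⟨i, hi, hmin⟩ := Finset.exists_min_image (cf b t).support (fun i => P.ord (cf b t i)) hne
  refine ⟨P.ord (cf b t i), ?_, ?_⟩
  · rw [mem_tens_iff b]
    intro j
    by_cases hj : cf b t j = 0
    · rw [hj]; exact zero_mem _
    · rw [mem_Fl, P.ge_iff hj]
      exact hmin j (Finsupp.mem_support_iff.2 hj)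
  · rw [mem_tens_iff b]
    intro h
    have h1 := h i
    rw [mem_Fl, P.ge_iff (Finsupp.mem_support_iff.1 hi)] at h1
    omega

end Tens

/-- GAUSS -/
theorem gauss : GaussStmt.{u} := by
  classical
  intro k E R _ _ _ _ _ _ _ _ l g y a D hg hy t ht
  by_cases ht0 : t = 0
  · rw [ht0]; exact zero_mem _
  classical
  let b := Module.Basis.ofVectorSpace k E
  -- the local statement
  have key : ∀ P : Place k R, t ∈ tens k E (Fl P (-((D.count P : ℕ) : ℤ))) := by
    intro P
    obtain ⟨r, hr⟩ := exists_resL P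
    obtain ⟨u, hu0, hu⟩ := P.exists_unif
    obtain ⟨d, hd, hd1⟩ := exists_exact (P := P) ht0
    have hcol : ∀ (x : E ⊗[k] R) (m n : ℤ), x * (1 : E) ⊗ₜ[k] (u ^ m) * (1 : E) ⊗ₜ[k] (u ^ n) =
        x * (1 : E) ⊗ₜ[k] (u ^ (m + n)) := by
      intro x m n
      rw [mul_assoc, Algebra.TensorProduct.tmul_mul_tmul, one_mul, zpow_add₀ hu0]
    -- the element `s`
    set A : ℤ := ((a.count P : ℕ) : ℤ) with hA
    have hs0 : yT k y g * (1 : E) ⊗ₜ[k] (u ^ A) = ∑ j, y j ⊗ₜ[k] (g j * u ^ A) := by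
      unfold yT
      rw [Finset.sum_mul]
      exact Finset.sum_congr rfl (fun j _ => by
        rw [Algebra.TensorProduct.tmul_mul_tmul, mul_one])
    have hg0 : ∀ j, P.Ge 0 (g j * u ^ A) := fun j =>
      (hg.1 P j).mul' (P.ge_zpow hu0 hu A) (by omega)
    have hs1 : yT k y g * (1 : E) ⊗ₜ[k] (u ^ A) ∈ tens k E (Fl P 0) := by
      rw [hs0]
      exact Submodule.sum_mem _ (fun j _ => tmul_mem_tens _ (hg0 j))
    have hs2 : rho E r (yT k y g * (1 : E) ⊗ₜ[k] (u ^ A)) ≠ 0 := by
      rw [hs0, map_sum]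
      simp only [rho_tmul]
      intro h
      rw [Fintype.linearIndependent_iff] at hy
      have h1 := hy _ h
      obtain ⟨j, hj⟩ := hg.2 P
      have h2 := (resL_eq_zero_iff hr (hg0 j)).1 (h1 j)
      apply hj
      have h3 := h2.mul (P.ge_zpow hu0 hu (-A))
      rw [mul_assoc, ← zpow_add₀ hu0, add_neg_cancel, zpow_zero, mul_one] at h3
      exact h3.mono (by omega)
    -- the element `t`
    have ht1 : t * (1 : E) ⊗ₜ[k] (u ^ (-d)) ∈ tens k E (Fl P 0) := by
      have h1 := mul_unif_mem hu0 hu (-d) hd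
      rwa [add_neg_cancel] at h1
    have ht2 : t * (1 : E) ⊗ₜ[k] (u ^ (-d)) ∉ tens k E (Fl P 1) := by
      intro h
      have h1 := mul_unif_mem hu0 hu d h
      rw [hcol, neg_add_cancel, zpow_zero] at h1
      apply hd1
      have h2 : (1 : E) ⊗ₜ[k] (1 : R) = 1 := rfl
      rw [h2, mul_one, add_comm] at h1
      exact h1
    have ht3 := rho_ne_zero hr ht1 ht2
    have hst := rho_mul hr hs1 ht1
    have hst2 : yT k y g * (1 : E) ⊗ₜ[k] (u ^ A) * (t * (1 : E) ⊗ₜ[k] (u ^ (-d))) =
        (yT k y g * t) * (1 : E) ⊗ₜ[k] (u ^ (A + -d)) := by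
      rw [← hcol]
      ring
    have hm : yT k y g * t ∈ tens k E (Fl P (-(((D + a).count P : ℕ) : ℤ))) := by
      refine tens_mono ?_ ht
      intro z hz
      exact mem_LD.1 hz P
    have hm2 := mul_unif_mem hu0 hu (A + -d) hm
    rw [← hst2] at hm2
    have hc : (((D + a).count P : ℕ) : ℤ) = ((D.count P : ℕ) : ℤ) + A := by
      rw [Multiset.count_add]; push_cast; rfl
    by_contra hcon
    have hlt : d < -((D.count P : ℕ) : ℤ) := by
      by_contra hge
      push Not at hge
      exact hcon (tens_mono (fun z hz => (mem_Fl.1 hz).mono hge) hd)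
    have h5 : yT k y g * (1 : E) ⊗ₜ[k] (u ^ A) * (t * (1 : E) ⊗ₜ[k] (u ^ (-d))) ∈
        tens k E (Fl P 1) :=
      tens_mono (fun z hz => (mem_Fl.1 hz).mono (by omega)) hm2
    rw [rho_eq_zero hr h5] at hst
    rcases mul_eq_zero.1 hst.symm with h | h
    · exact hs2 h
    · exact ht3 h
  rw [mem_tens_iff b]
  intro i
  change _ ∈ LD _
  rw [mem_LD]
  intro P
  exact (mem_tens_iff b).1 (key P) i

end PGL
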