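import Mathlib
import Pool.Agent.Helper11_PGL.StmtK

/-!
# PGL, module UNIT: a unit maximal minor
-/

open PGH Matrix

universe u

namespace PGL

section

variable {k E : Type*} [Field k] [Field E] [Algebra k E] (v : Place k E)

theorem ge_one_mul_sub {a b c d : E} (ha : v.Ge 0 a) (hd : v.Ge 0 d) (h1 : v.Ge 1 (a - c))
    (h2 : v.Ge 1 (b - d)) : v.Ge 1 (a * b - c * d) := by
  have e : a * b - c * d = a * (b - d) + (a - c) * d := by ring
  rw [e]
  exact (ha.mul' h2 (by norm_num)).add (h1.mul' hd (by norm_num))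

theorem ge_zero_of_ge_one_sub {a c : E} (hc : v.Ge 0 c) (h : v.Ge 1 (a - c)) : v.Ge 0 a := by
  have := (h.mono (by norm_num : (0:ℤ) ≤ 1)).add hc
  simpa using this

theorem ge_one_prod_sub {ι : Type*} (s : Finset ι) (a : ι → E) (c : ι → k)
    (h : ∀ i ∈ s, v.Ge 1 (a i - algebraMap k E (c i))) :
    v.Ge 1 (∏ i ∈ s, a i - algebraMap k E (∏ i ∈ s, c i)) := by
  classical
  induction s using Finset.induction_on with
  | empty => simp
  | insert i s hi ih =>
    rw [Finset.prod_insert hi, Finset.prod_insert hi, map_mul]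
    have h1 := h i (Finset.mem_insert_self _ _)
    exact ge_one_mul_sub v (ge_zero_of_ge_one_sub v (v.ge_const _) h1) (v.ge_const _) h1
      (ih fun j hj => h j (Finset.mem_insert_of_mem hj))

theorem ge_one_det_sub {ι : Type*} [Fintype ι] [DecidableEq ι] (A : Matrix ι ι E)
    (A₀ : Matrix ι ι k) (h : ∀ i j, v.Ge 1 (A i j - algebraMap k E (A₀ i j))) :
    v.Ge 1 (A.det - algebraMap k E A₀.det) := by
  rw [Matrix.det_apply', Matrix.det_apply', map_sum, ← Finset.sum_sub_distrib]
  apply Place.Ge.sum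
  intro σ _
  rw [map_mul, map_intCast, ← mul_sub]
  exact (v.ge_int _).mul' (ge_one_prod_sub v _ _ _ (fun i _ => h _ _)) (by norm_num)

end

/-- an injective `(H + δ) × H` matrix over a field has a nonzero maximal minor -/
theorem exists_minDet_ne_zero {k : Type*} [Field k] {H δ : ℕ} (A₀ : Matrix (Fin (H + δ)) (Fin H) k)
    (h : Function.Injective A₀.mulVec) : ∃ σ : Fin H ⊕ Fin δ ≃ Fin (H + δ),
      (Matrix.of (fun (i j : Fin H) => A₀ (σ (Sum.inl i)) j)).det ≠ 0 := by
  classical
  have hrank : A₀.rank = H := by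
    have h1 : Function.Injective A₀.mulVecLin := h
    unfold Matrix.rank
    rw [LinearMap.finrank_range_of_inj h1]
    simp
  obtain ⟨κ, a, ha, hspan, hli⟩ := exists_linearIndependent' k A₀.row
  have : Finite κ := Finite.of_injective a ha
  have := Fintype.ofFinite κ
  have hcard : Fintype.card κ = H := by
    have h1 := finrank_span_eq_card hli
    rw [hspan, ← Matrix.rank_eq_finrank_span_row, hrank] at h1
    exact h1.symm
  let s : Finset (Fin (H + δ)) := Finset.univ.image a
  have hs : s.card = H := by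
    rw [Finset.card_image_of_injective _ ha, Finset.card_univ, hcard]
  have hsc : sᶜ.card = δ := by
    rw [Finset.card_compl, hs, Fintype.card_fin]; omega
  let σ := finSumEquivOfFinset hs hsc
  refine ⟨σ, ?_⟩
  have hmem : ∀ i : Fin H, ∃ x : κ, a x = σ (Sum.inl i) := by
    intro i
    have h1 : σ (Sum.inl i) ∈ s := by
      change finSumEquivOfFinset hs hsc (Sum.inl i) ∈ s
      rw [finSumEquivOfFinset_inl]
      exact Finset.orderEmbOfFin_mem s hs i
    obtain ⟨x, -, hx⟩ := Finset.mem_image.1 h1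
    exact ⟨x, hx⟩
  choose g hg using hmem
  have hginj : Function.Injective g := by
    intro i j hij
    have h1 : σ (Sum.inl i) = σ (Sum.inl j) := by rw [← hg, ← hg, hij]
    exact Sum.inl_injective (σ.injective h1)
  have hli2 : LinearIndependent k (Matrix.of (fun (i j : Fin H) => A₀ (σ (Sum.inl i)) j)).row := by
    have h1 := hli.comp g hginj
    have h2 : (A₀.row ∘ a) ∘ g = (Matrix.of (fun (i j : Fin H) => A₀ (σ (Sum.inl i)) j)).row := by
      funext i j
      simp only [Function.comp, hg]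
      rfl
    rwa [h2] at h1
  have h3 := (Matrix.linearIndependent_rows_iff_isUnit.1 hli2)
  exact ((Matrix.isUnit_iff_isUnit_det _).1 h3).ne_zero

/-- UNIT -/
theorem unit : UnitStmt.{u} := by
  intro k E _ _ _ _ _ _ v H δ A A₀ hA hinj
  obtain ⟨σ, hσ⟩ := exists_minDet_ne_zero A₀ hinj
  have h1 := ge_one_det_sub v (Matrix.of (fun (i j : Fin H) => A (σ (Sum.inl i)) j))
    (Matrix.of (fun (i j : Fin H) => A₀ (σ (Sum.inl i)) j)) (fun i j => hA _ _)
  have h2 : ¬ v.Ge 1 (minDet A σ) := by
    intro h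
    have h3 := h.sub h1
    unfold minDet at h3
    rw [sub_sub_cancel] at h3
    exact v.not_ge_one_const hσ h3
  have h4 : v.Ge 0 (minDet A σ) := ge_zero_of_ge_one_sub v (v.ge_const _) h1
  have h5 : minDet A σ ≠ 0 := by
    rintro h
    rw [h] at h2
    exact h2 (v.ge_zero 1)
  refine ⟨σ, h5, ?_⟩
  rw [v.ge_iff h5] at h2 h4
  omega

end PGL
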